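import Pool.Agent.W128.VA.Stm

set_option autoImplicit false

namespace Pool.Agent.W701.VA.OM23

open Finset
open Pool.Agent.W128.VA

lemma om0_eq (F : FY) : om0 = (1 / 4 : ℂ) • F.Y (Finsupp.single 0 (MvPolynomial.X 0)) (-1)
      (Finsupp.single 0 (MvPolynomial.X 0))
    + (1 / 2 : ℂ) • T0 (Finsupp.single 0 (MvPolynomial.X 0)) + T0 (T0 (Finsupp.single 1 1)) := by
  rw [F.Yh, hop_single, T0_single, T0_single, T0_single]
  have h1 : hR (-1) 0 (MvPolynomial.X 0) = MvPolynomial.X 0 * MvPolynomial.X 0 := by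
    simp [hR]
  have h2 : D 1 = 0 := by simp [D]
  rw [h1, h2]
  simp only [D_X, om0]
  rw [Finsupp.smul_single, Finsupp.smul_single, ← Finsupp.single_add]
  congr 2
  · simp [pow_two]
  · simp [pow_two]

lemma choose_m1 (j : ℕ) : (Ring.choose (-1 : ℤ) j : ℤ) = (-1) ^ j := by
  induction j with
  | zero => simp
  | succ k ih =>
    have h := Ring.choose_succ_succ (-1 : ℤ) k
    rw [neg_add_cancel, Ring.choose_zero_succ, ih] at h
    rw [pow_succ]
    linarith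

lemma cf_one (j : ℕ) : cf (-1) j = 1 := by
  unfold cf
  rw [choose_m1]
  push_cast
  rw [← mul_pow]
  simp

lemma bi_zero (j : ℕ) : bi 0 j = if j = 0 then 1 else 0 := by
  unfold bi
  rw [Ring.choose_zero_ite]
  split_ifs <;> simp

lemma hR_pos (m : ℕ) (k : ℤ) (p : R0) :
    hR ((m : ℤ) + 1) k p = (2 * ((m : ℂ) + 1)) • MvPolynomial.pderiv m p := by
  unfold hR
  rw [if_neg (by omega), if_neg (by omega)]
  have h : ((m : ℤ) + 1 - 1).toNat = m := by omega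
  rw [h]
  simp

/-- modes of the conformal vector -/
lemma Yom (F : FY) (n : ℕ) (w : V0) (hw : ∀ j : ℤ, 3 ≤ j → hop j w = 0) :
    F.Y om0 n w = (1 / 4 : ℂ) • ∑ j ∈ range 3, (hop (-1 - (j : ℤ)) (hop ((n : ℤ) + j) w)
        + hop ((n : ℤ) - 1 - j) (hop j w))
      - ((n : ℂ) / 2) • hop ((n : ℤ) - 1) w + ((n : ℂ) * ((n : ℂ) - 1)) • eV 1 ((n : ℤ) - 2) w := by
  have hb := F.bor (Finsupp.single 0 (MvPolynomial.X 0)) (Finsupp.single 0 (MvPolynomial.X 0)) w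
    (-1) 0 n 3 (by
      intro j hj
      rw [F.Yh, hop_single]
      have h0 : -1 + (j : ℤ) = ((j - 2 : ℕ) : ℤ) + 1 := by omega
      have h2 : (0 : ℕ) ≠ j - 2 := by omega
      rw [h0, hR_pos, MvPolynomial.pderiv_X_of_ne h2, smul_zero, Finsupp.single_zero]) (by
      intro j hj
      rw [F.Yh]
      exact hw _ (by omega)) (by
      intro j hj
      rw [F.Yh]
      exact hw _ (by omega))
  have hl : ∑ j ∈ range 3, bi 0 j • F.Y (F.Y (Finsupp.single 0 (MvPolynomial.X 0)) (-1 + (j : ℤ))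
      (Finsupp.single 0 (MvPolynomial.X 0))) (0 + (n : ℤ) - j) w
      = F.Y (F.Y (Finsupp.single 0 (MvPolynomial.X 0)) (-1)
      (Finsupp.single 0 (MvPolynomial.X 0))) n w := by
    simp [bi_zero]
  rw [hl] at hb
  rw [om0_eq F]
  rw [map_add, map_add, map_smul, map_smul]
  simp only [Pi.add_apply, Pi.smul_apply, LinearMap.add_apply, LinearMap.smul_apply]
  rw [hb, F.Tder, F.Tder, F.Tder, F.Yh, F.Ye]
  simp only [LinearMap.smul_apply, cf_one, one_smul]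
  have e1 : ∀ j : ℕ, hop (0 + -1 - (j : ℤ)) (hop ((n : ℤ) + j) w)
      - ((-1 : ℂ) ^ (-1 : ℤ)) • hop ((n : ℤ) + -1 - j) (hop (0 + (j : ℤ)) w)
      = hop (-1 - (j : ℤ)) (hop ((n : ℤ) + j) w) + hop ((n : ℤ) - 1 - j) (hop j w) := by
    intro j
    have h3 : ((-1 : ℂ) ^ (-1 : ℤ)) = -1 := by norm_num
    rw [h3, zero_add, zero_add, neg_smul, one_smul, sub_neg_eq_add, ← sub_eq_add_neg]
  rw [Finset.sum_congr rfl fun j _ => e1 j]
  rw [smul_smul, smul_smul]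
  have e2 : (n : ℤ) - 1 - 1 = (n : ℤ) - 2 := by ring
  rw [e2]
  have e3 : (1 / 2 : ℂ) * -((n : ℤ) : ℂ) = -((n : ℂ) / 2) := by push_cast; ring
  have e4 : -((n : ℤ) : ℂ) * -(((n : ℤ) - 1 : ℤ) : ℂ) = (n : ℂ) * ((n : ℂ) - 1) := by
    push_cast; ring
  rw [e3, e4, neg_smul]
  abel

/-! ### the action of the Heisenberg modes on `om0` -/

noncomputable def pa : R0 := (1 / 4 : ℂ) • MvPolynomial.X 0 ^ 2 + (1 / 2 : ℂ) • MvPolynomial.X 1
noncomputable def pb : R0 := MvPolynomial.X 1 + MvPolynomial.X 0 ^ 2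

lemma om0_def : om0 = Finsupp.single 0 pa + Finsupp.single 1 pb := rfl

lemma hR_zero (k : ℤ) (p : R0) : hR 0 k p = (2 * (k : ℂ)) • p := by
  unfold hR
  rw [if_neg (by omega), if_pos rfl]
  simp

lemma hR_one (k : ℤ) (p : R0) : hR 1 k p = (2 : ℂ) • MvPolynomial.pderiv 0 p := by
  have h := hR_pos 0 k p
  simpa using h

lemma hR_two (k : ℤ) (p : R0) : hR 2 k p = (4 : ℂ) • MvPolynomial.pderiv 1 p := by
  have h := hR_pos 1 k p
  have e : ((1 : ℕ) : ℤ) + 1 = 2 := rfl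
  rw [e] at h
  rw [h]
  congr 1
  norm_num

lemma hR_m1 (k : ℤ) (p : R0) : hR (-1) k p = MvPolynomial.X 0 * p := by
  simp [hR]

lemma d_sq (i : ℕ) : MvPolynomial.pderiv i ((MvPolynomial.X 0 : R0) ^ 2)
    = (2 : ℂ) • (MvPolynomial.X 0 * MvPolynomial.pderiv i (MvPolynomial.X 0)) := by
  rw [pow_two, Derivation.leibniz, smul_eq_mul]
  module

lemma d0a : MvPolynomial.pderiv 0 pa = (1 / 2 : ℂ) • (MvPolynomial.X 0 : R0) := by
  unfold pa
  rw [map_add, Derivation.map_smul, Derivation.map_smul, d_sq,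
    MvPolynomial.pderiv_X_self, MvPolynomial.pderiv_X_of_ne (by norm_num), mul_one]
  module

lemma d1a : MvPolynomial.pderiv 1 pa = (1 / 2 : ℂ) • (1 : R0) := by
  unfold pa
  rw [map_add, Derivation.map_smul, Derivation.map_smul, d_sq,
    MvPolynomial.pderiv_X_self, MvPolynomial.pderiv_X_of_ne (by norm_num), mul_zero]
  module

lemma d0b : MvPolynomial.pderiv 0 pb = (2 : ℂ) • (MvPolynomial.X 0 : R0) := by
  unfold pb
  rw [map_add, d_sq,
    MvPolynomial.pderiv_X_self, MvPolynomial.pderiv_X_of_ne (by norm_num), mul_one]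
  module

lemma d1b : MvPolynomial.pderiv 1 pb = (1 : R0) := by
  unfold pb
  rw [map_add, d_sq,
    MvPolynomial.pderiv_X_self, MvPolynomial.pderiv_X_of_ne (by norm_num), mul_zero]
  module

lemma dna (i : ℕ) (hi : 2 ≤ i) : MvPolynomial.pderiv i pa = 0 := by
  unfold pa
  rw [map_add, Derivation.map_smul, Derivation.map_smul, d_sq,
    MvPolynomial.pderiv_X_of_ne (by omega), MvPolynomial.pderiv_X_of_ne (by omega), mul_zero]
  module

lemma dnb (i : ℕ) (hi : 2 ≤ i) : MvPolynomial.pderiv i pb = 0 := by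
  unfold pb
  rw [map_add, d_sq,
    MvPolynomial.pderiv_X_of_ne (by omega), MvPolynomial.pderiv_X_of_ne (by omega), mul_zero]
  module

lemma hop_om_large (j : ℤ) (hj : 3 ≤ j) : hop j om0 = 0 := by
  obtain ⟨i, rfl⟩ : ∃ i : ℕ, j = (i : ℤ) + 1 := ⟨(j - 1).toNat, by omega⟩
  rw [om0_def, map_add, hop_single, hop_single, hR_pos, hR_pos, dna i (by omega),
    dnb i (by omega)]
  simp

lemma hop0_om : hop 0 om0 = Finsupp.single 1 ((2 : ℂ) • pb) := by
  rw [om0_def, map_add, hop_single, hop_single, hR_zero, hR_zero]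
  simp

lemma hop1_om : hop 1 om0 = Finsupp.single 0 (MvPolynomial.X 0)
    + Finsupp.single 1 ((4 : ℂ) • (MvPolynomial.X 0 : R0)) := by
  rw [om0_def, map_add, hop_single, hop_single, hR_one, hR_one, d0a, d0b]
  congr 2 <;> module

lemma hop2_om : hop 2 om0 = Finsupp.single 0 ((2 : ℂ) • (1 : R0))
    + Finsupp.single 1 ((4 : ℂ) • (1 : R0)) := by
  rw [om0_def, map_add, hop_single, hop_single, hR_two, hR_two, d1a, d1b]
  congr 2
  module

/-! ### the vertex operator of `e` -/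

lemma PZ_neg (s : ℤ) (hs : s < 0) : PZ 1 s = 0 := by
  unfold PZ
  rw [if_neg (by omega)]

lemma PZ_zero : PZ 1 0 = 1 := by
  unfold PZ
  rw [if_pos le_rfl]
  exact P_zero 1

lemma PZ_one : PZ 1 1 = MvPolynomial.X 0 := by
  unfold PZ
  rw [if_pos (by norm_num)]
  have : (1 : ℤ).toNat = 0 + 1 := rfl
  rw [this, P_succ]
  simp [P_zero]

lemma eop_X (h : S_EOPC) (s : ℤ) (i : ℕ) : eop 1 s (MvPolynomial.X i)
    = MvPolynomial.X i * PZ 1 s - (2 : ℂ) • PZ 1 (s + (i + 1)) := by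
  have h1 := (h 1 s).1 i 1
  rw [mul_one, (h 1 s).2.2, (h 1 _).2.2] at h1
  rw [h1]
  simp

lemma eop_sq (h : S_EOPC) (s : ℤ) : eop 1 s (MvPolynomial.X 0 ^ 2)
    = MvPolynomial.X 0 * (MvPolynomial.X 0 * PZ 1 s) - (4 : ℂ) • (MvPolynomial.X 0 * PZ 1 (s + 1))
      + (4 : ℂ) • PZ 1 (s + 2) := by
  have h1 := (h 1 s).1 0 (MvPolynomial.X 0)
  rw [← pow_two, eop_X h, eop_X h] at h1
  rw [h1]
  have e1 : s + ((0 : ℕ) + 1 : ℤ) + (((0 : ℕ) : ℤ) + 1) = s + 2 := by push_cast; ring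
  have e2 : s + (((0 : ℕ) : ℤ) + 1) = s + 1 := by push_cast; ring
  rw [e1, e2, mul_sub, mul_smul_comm]
  push_cast
  module

lemma eop_a (h : S_EOPC) (s : ℤ) : eop 1 s pa
    = (1 / 4 : ℂ) • (MvPolynomial.X 0 * (MvPolynomial.X 0 * PZ 1 s)
      - (4 : ℂ) • (MvPolynomial.X 0 * PZ 1 (s + 1)) + (4 : ℂ) • PZ 1 (s + 2))
      + (1 / 2 : ℂ) • (MvPolynomial.X 1 * PZ 1 s - (2 : ℂ) • PZ 1 (s + 2)) := by
  unfold pa
  rw [map_add, map_smul, map_smul, eop_sq h, eop_X h]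
  have e1 : s + (((1 : ℕ) : ℤ) + 1) = s + 2 := by push_cast; ring
  rw [e1]

lemma eop_b (h : S_EOPC) (s : ℤ) : eop 1 s pb
    = (MvPolynomial.X 1 * PZ 1 s - (2 : ℂ) • PZ 1 (s + 2)) +
      (MvPolynomial.X 0 * (MvPolynomial.X 0 * PZ 1 s)
      - (4 : ℂ) • (MvPolynomial.X 0 * PZ 1 (s + 1)) + (4 : ℂ) • PZ 1 (s + 2)) := by
  unfold pb
  rw [map_add, eop_sq h, eop_X h]
  have e1 : s + (((1 : ℕ) : ℤ) + 1) = s + 2 := by push_cast; ring
  rw [e1]

lemma eV0_om (h : S_EOPC) : eV 1 0 om0 = Finsupp.single 1 (-(MvPolynomial.X 0 : R0)) := by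
  rw [om0_def, map_add, eV_single, eV_single, eop_a h, eop_b h]
  have e1 : (-0 - 1 - 2 * 1 * 0 : ℤ) = -1 := by norm_num
  have e2 : (-0 - 1 - 2 * 1 * 1 : ℤ) = -3 := by norm_num
  rw [e1, e2]
  have p1 : PZ 1 (-1) = 0 := PZ_neg _ (by norm_num)
  have p2 : PZ 1 (-1 + 1) = 1 := by rw [neg_add_cancel]; exact PZ_zero
  have p3 : PZ 1 (-1 + 2) = MvPolynomial.X 0 := by
    have : (-1 + 2 : ℤ) = 1 := by norm_num
    rw [this]; exact PZ_one
  have p4 : PZ 1 (-3) = 0 := PZ_neg _ (by norm_num)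
  have p5 : PZ 1 (-3 + 1) = 0 := PZ_neg _ (by norm_num)
  have p6 : PZ 1 (-3 + 2) = 0 := PZ_neg _ (by norm_num)
  rw [p1, p2, p3, p4, p5, p6]
  simp only [mul_zero, smul_zero, sub_zero, add_zero, Finsupp.single_zero, zero_add, mul_one]
  congr 1
  module

lemma eV1_om (h : S_EOPC) : eV 1 1 om0 = 0 := by
  rw [om0_def, map_add, eV_single, eV_single, eop_a h, eop_b h]
  have e1 : (-1 - 1 - 2 * 1 * 0 : ℤ) = -2 := by norm_num
  have e2 : (-1 - 1 - 2 * 1 * 1 : ℤ) = -4 := by norm_num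
  rw [e1, e2]
  have p1 : PZ 1 (-2) = 0 := PZ_neg _ (by norm_num)
  have p2 : PZ 1 (-2 + 1) = 0 := PZ_neg _ (by norm_num)
  have p3 : PZ 1 (-2 + 2) = 1 := by
    have : (-2 + 2 : ℤ) = 0 := by norm_num
    rw [this]; exact PZ_zero
  have p4 : PZ 1 (-4) = 0 := PZ_neg _ (by norm_num)
  have p5 : PZ 1 (-4 + 1) = 0 := PZ_neg _ (by norm_num)
  have p6 : PZ 1 (-4 + 2) = 0 := PZ_neg _ (by norm_num)
  rw [p1, p2, p3, p4, p5, p6]
  simp only [mul_zero, smul_zero, sub_zero, add_zero, Finsupp.single_zero, zero_add]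
  have : (1 / 4 : ℂ) • ((4 : ℂ) • (1 : R0)) + (1 / 2 : ℂ) • (0 - (2 : ℂ) • (1 : R0)) = 0 := by
    module
  rw [this, Finsupp.single_zero]

/-! ### the result -/

noncomputable def A : V0 := Finsupp.single 0 (MvPolynomial.X 0)
noncomputable def B : V0 := Finsupp.single 1 (MvPolynomial.X 0)
noncomputable def O0 : V0 := Finsupp.single 0 1
noncomputable def O1 : V0 := Finsupp.single 1 1
noncomputable def Q : V0 := Finsupp.single 1 pb

lemma h0om : hop 0 om0 = (2 : ℂ) • Q := by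
  rw [hop0_om, Q, Finsupp.smul_single]
lemma h1om : hop 1 om0 = A + (4 : ℂ) • B := by
  rw [hop1_om, A, B, Finsupp.smul_single]
lemma h2om : hop 2 om0 = (2 : ℂ) • O0 + (4 : ℂ) • O1 := by
  rw [hop2_om, O0, O1, Finsupp.smul_single, Finsupp.smul_single]
lemma hmO0 : hop (-1) O0 = A := by
  rw [O0, hop_single, hR_m1, mul_one, A]
lemma hmO1 : hop (-1) O1 = B := by
  rw [O1, hop_single, hR_m1, mul_one, B]
lemma h1Q : hop 1 Q = (4 : ℂ) • B := by
  rw [Q, hop_single, hR_one, d0b, B, Finsupp.smul_single]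
  congr 1
  module
lemma h2Q : hop 2 Q = (4 : ℂ) • O1 := by
  rw [Q, hop_single, hR_two, d1b, O1, Finsupp.smul_single]
lemma h0A : hop 0 A = 0 := by
  rw [A, hop_single, hR_zero]
  simp
lemma h0B : hop 0 B = (2 : ℂ) • B := by
  rw [B, hop_single, hR_zero, Finsupp.smul_single]
  simp
lemma h0O0 : hop 0 O0 = 0 := by
  rw [O0, hop_single, hR_zero]
  simp
lemma h0O1 : hop 0 O1 = (2 : ℂ) • O1 := by
  rw [O1, hop_single, hR_zero, Finsupp.smul_single]
  simp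
lemma h1A : hop 1 A = (2 : ℂ) • O0 := by
  rw [A, hop_single, hR_one, MvPolynomial.pderiv_X_self, O0, Finsupp.smul_single]
lemma h1B : hop 1 B = (2 : ℂ) • O1 := by
  rw [B, hop_single, hR_one, MvPolynomial.pderiv_X_self, O1, Finsupp.smul_single]
lemma e0om (h : S_EOPC) : eV 1 0 om0 = (-1 : ℂ) • B := by
  rw [eV0_om h, B, Finsupp.smul_single]
  congr 1
  module

theorem main : S_EOPC → S_OM23 := by
  intro h F
  have hl := fun j hj => hop_om_large j hj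
  constructor
  · have h2 := Yom F 2 om0 hl
    have e : ((2 : ℕ) : ℤ) = 2 := rfl
    rw [e] at h2
    rw [h2]
    simp only [Finset.sum_range_succ, Finset.sum_range_zero, zero_add]
    have a1 : hop ((2 : ℤ) + ((1 : ℕ) : ℤ)) om0 = 0 := hl _ (by norm_num)
    have a2 : hop ((2 : ℤ) + ((2 : ℕ) : ℤ)) om0 = 0 := hl _ (by norm_num)
    have c0 : (2 : ℤ) + ((0 : ℕ) : ℤ) = 2 := by norm_num
    have c1 : (-1 : ℤ) - ((0 : ℕ) : ℤ) = -1 := by norm_num
    have c2 : (2 : ℤ) - 1 - ((0 : ℕ) : ℤ) = 1 := by norm_num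
    have c3 : (2 : ℤ) - 1 - ((1 : ℕ) : ℤ) = 0 := by norm_num
    have c4 : (2 : ℤ) - 1 - ((2 : ℕ) : ℤ) = -1 := by norm_num
    have c5 : (((0 : ℕ) : ℤ)) = 0 := rfl
    have c6 : (((1 : ℕ) : ℤ)) = 1 := rfl
    have c7 : (((2 : ℕ) : ℤ)) = 2 := rfl
    have c8 : (2 : ℤ) - 1 = 1 := by norm_num
    have c9 : (2 : ℤ) - 2 = 0 := by norm_num
    rw [a1, a2, c0, c1, c2, c3, c4, c5, c6, c7, c8, c9, h0om, h1om, h2om, e0om h]
    simp only [map_add, map_zero, map_smul, hmO0, hmO1, h1Q, h0A, h0B]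
    push_cast
    module
  · have h2 := Yom F 3 om0 hl
    have e : ((3 : ℕ) : ℤ) = 3 := rfl
    rw [e] at h2
    rw [h2]
    simp only [Finset.sum_range_succ, Finset.sum_range_zero, zero_add]
    have a0 : hop ((3 : ℤ) + ((0 : ℕ) : ℤ)) om0 = 0 := hl _ (by norm_num)
    have a1 : hop ((3 : ℤ) + ((1 : ℕ) : ℤ)) om0 = 0 := hl _ (by norm_num)
    have a2 : hop ((3 : ℤ) + ((2 : ℕ) : ℤ)) om0 = 0 := hl _ (by norm_num)
    have c2 : (3 : ℤ) - 1 - ((0 : ℕ) : ℤ) = 2 := by norm_num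
    have c3 : (3 : ℤ) - 1 - ((1 : ℕ) : ℤ) = 1 := by norm_num
    have c4 : (3 : ℤ) - 1 - ((2 : ℕ) : ℤ) = 0 := by norm_num
    have c5 : (((0 : ℕ) : ℤ)) = 0 := rfl
    have c6 : (((1 : ℕ) : ℤ)) = 1 := rfl
    have c7 : (((2 : ℕ) : ℤ)) = 2 := rfl
    have c8 : (3 : ℤ) - 1 = 2 := by norm_num
    have c9 : (3 : ℤ) - 2 = 1 := by norm_num
    rw [a0, a1, a2, c2, c3, c4, c5, c6, c7, c8, c9, h0om, h1om, h2om, eV1_om h]
    have v : vac1 = O0 := rfl
    rw [v]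
    simp only [map_add, map_zero, map_smul, h2Q, h1A, h1B, h0O0, h0O1]
    push_cast
    module

end Pool.Agent.W701.VA.OM23
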